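import Pool.Agent.Helper18.NF.Stmts2

/-!
Module RED: reduction of points of an elliptic curve at a place.
-/

set_option autoImplicit false

namespace Pool.Agent.Helper18.NF

section

variable {M F : Type} [Field M] [Field F] {C : ValuationSubring M} {φ : C →+* F}

/-- the element `x` has the value `v` at the place -/
def red_V (C : ValuationSubring M) (φ : C →+* F) (x : M) (v : F) : Prop :=
  ∃ h : x ∈ C, φ ⟨x, h⟩ = v

theorem red_uniq {x : M} {v w : F} (h1 : red_V C φ x v) (h2 : red_V C φ x w) : v = w := by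
  obtain ⟨h1, rfl⟩ := h1
  obtain ⟨_, rfl⟩ := h2
  rfl

theorem red_congr {x x' : M} {v v' : F} (h1 : red_V C φ x v) (hx : x' = x) (hv : v' = v) :
    red_V C φ x' v' := by
  subst hx; subst hv; exact h1

theorem red_add {x y : M} {v w : F} (h1 : red_V C φ x v) (h2 : red_V C φ y w) :
    red_V C φ (x + y) (v + w) := by
  obtain ⟨h1, rfl⟩ := h1
  obtain ⟨h2, rfl⟩ := h2
  exact ⟨C.add_mem _ _ h1 h2, map_add φ ⟨x, h1⟩ ⟨y, h2⟩⟩

theorem red_mul {x y : M} {v w : F} (h1 : red_V C φ x v) (h2 : red_V C φ y w) :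
    red_V C φ (x * y) (v * w) := by
  obtain ⟨h1, rfl⟩ := h1
  obtain ⟨h2, rfl⟩ := h2
  exact ⟨C.mul_mem _ _ h1 h2, map_mul φ ⟨x, h1⟩ ⟨y, h2⟩⟩

theorem red_neg {x : M} {v : F} (h1 : red_V C φ x v) : red_V C φ (-x) (-v) := by
  obtain ⟨h1, rfl⟩ := h1
  exact ⟨C.neg_mem _ h1, map_neg φ ⟨x, h1⟩⟩

theorem red_sub {x y : M} {v w : F} (h1 : red_V C φ x v) (h2 : red_V C φ y w) :
    red_V C φ (x - y) (v - w) := by
  rw [sub_eq_add_neg, sub_eq_add_neg]
  exact red_add h1 (red_neg h2)

theorem red_one : red_V C φ 1 1 := ⟨C.one_mem, map_one φ⟩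

theorem red_zero : red_V C φ 0 0 := ⟨C.zero_mem, map_zero φ⟩

theorem red_pow {x : M} {v : F} (h1 : red_V C φ x v) (n : ℕ) : red_V C φ (x ^ n) (v ^ n) := by
  induction n with
  | zero => rw [pow_zero, pow_zero]; exact red_one
  | succ n ih => rw [pow_succ, pow_succ]; exact red_mul ih h1

theorem red_two : red_V C φ 2 2 := by
  have := red_add (C := C) (φ := φ) red_one red_one
  rwa [one_add_one_eq_two, one_add_one_eq_two] at this

theorem red_three : red_V C φ 3 3 := by
  have := red_add (C := C) (φ := φ) red_two red_one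
  rwa [two_add_one_eq_three, two_add_one_eq_three] at this

variable (hφ : ∀ x : C, φ x = 0 ↔ ((x : M) = 0 ∨ (x : M)⁻¹ ∉ C))

include hφ in
theorem red_inv {x : M} {v : F} (h1 : red_V C φ x v) (hv : v ≠ 0) : red_V C φ x⁻¹ v⁻¹ := by
  obtain ⟨h1, rfl⟩ := h1
  have h2 := hv
  rw [Ne, hφ, not_or, not_not] at h2
  refine ⟨h2.2, ?_⟩
  have h3 : φ ⟨x, h1⟩ * φ ⟨x⁻¹, h2.2⟩ = 1 := by
    rw [← map_mul, ← map_one φ]
    congr 1
    exact Subtype.ext (mul_inv_cancel₀ h2.1)
  exact eq_inv_of_mul_eq_one_right h3

include hφ in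
theorem red_div {x y : M} {v w : F} (h1 : red_V C φ x v) (h2 : red_V C φ y w) (hw : w ≠ 0) :
    red_V C φ (x / y) (v / w) := by
  rw [div_eq_mul_inv, div_eq_mul_inv]
  exact red_mul h1 (red_inv hφ h2 hw)

include hφ in
theorem red_notin {x : M} (h : x ∉ C) : red_V C φ x⁻¹ 0 := by
  have h1 : x⁻¹ ∈ C := (C.mem_or_inv_mem x).resolve_left h
  refine ⟨h1, ?_⟩
  rw [hφ]
  right
  change (x⁻¹)⁻¹ ∉ C
  rw [inv_inv]
  exact h

theorem red_sq_notin {x : M} (h : x ∉ C) : x ^ 2 ∉ C := by
  intro h2
  apply h
  have h1 : x⁻¹ ∈ C := (C.mem_or_inv_mem x).resolve_left h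
  have h3 := C.mul_mem _ _ h2 h1
  have hx : x ≠ 0 := fun h0 => h (h0 ▸ C.zero_mem)
  have : x ^ 2 * x⁻¹ = x := by
    rw [pow_two, mul_assoc, mul_inv_cancel₀ hx, mul_one]
  rwa [this] at h3

/-- a quotient with denominator of value zero and numerator of nonzero value -/
theorem red_quot_notin {n d : M} {v : F} (hn : red_V C φ n v) (hv : v ≠ 0) (hd : red_V C φ d 0)
    (hd0 : d ≠ 0) : n / d ∉ C := by
  intro h
  apply hv
  have h1 : red_V C φ (n / d * d) (φ ⟨n / d, h⟩ * 0) := red_mul ⟨h, rfl⟩ hd
  rw [div_mul_cancel₀ _ hd0, mul_zero] at h1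
  exact red_uniq hn h1

end

theorem st_RED : ST_RED := by
  intro k M F C₀ _ _ _ _ _ _ _ _ _ C φ i j hφ hij a b hΔ
  haveI : CharZero C₀ := (i : C₀ →+* M).charZero
  have hk : ∀ c : k, red_V C φ (algebraMap k M c) (algebraMap k F c) := by
    intro c
    exact red_congr (hij (algebraMap k C₀ c)) (AlgHom.commutes i c).symm (AlgHom.commutes j c).symm
  have hc : ∀ c : C₀, red_V C φ (i c) (j c) := hij
  -- the second coordinate
  have hy : ∀ x y : M, Eq3 a b x y → ∀ u : F, red_V C φ x u →
      ∃ v, red_V C φ y v ∧ Eq3 a b u v := by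
    intro x y h u hu
    have h1 : red_V C φ (y ^ 2) (u ^ 3 + algebraMap k F a * u + algebraMap k F b) :=
      red_congr (red_add (red_add (red_pow hu 3) (red_mul (hk a) hu)) (hk b)) h rfl
    have h2 : y ∈ C := by
      by_contra h3
      exact red_sq_notin h3 h1.1
    refine ⟨φ ⟨y, h2⟩, ⟨h2, rfl⟩, ?_⟩
    exact red_uniq (red_pow ⟨h2, rfl⟩ 2) h1
  have hex : ∀ Q : EP a b M, ∃ R : EP a b F, (Q = 0 → R = 0) ∧
      (∀ (x y : M) (h : Eq3 a b x y), Q = EP.pt hΔ x y h → x ∉ C → R = 0) ∧
      (∀ (x y : M) (h : Eq3 a b x y), Q = EP.pt hΔ x y h → ∀ (hx : x ∈ C), ∃ (hy : y ∈ C)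
        (h' : Eq3 a b (φ ⟨x, hx⟩) (φ ⟨y, hy⟩)), R = EP.pt hΔ _ _ h') := by
    intro Q
    rcases EP.cases hΔ Q with rfl | ⟨x, y, h, rfl⟩
    · exact ⟨0, fun _ => rfl, fun _ _ _ _ _ => rfl, fun x y h h0 =>
        absurd h0.symm (EP.pt_ne_zero hΔ h)⟩
    · by_cases hx : x ∈ C
      · obtain ⟨v, ⟨h1, rfl⟩, h2⟩ := hy x y h _ ⟨hx, rfl⟩
        refine ⟨EP.pt hΔ _ _ h2, fun h0 => absurd h0 (EP.pt_ne_zero hΔ h), ?_, ?_⟩
        · intro x' y' h' he hx'
          obtain ⟨rfl, rfl⟩ := EP.pt_inj hΔ he
          exact absurd hx hx'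
        · intro x' y' h' he hx'
          obtain ⟨rfl, rfl⟩ := EP.pt_inj hΔ he
          exact ⟨h1, h2, rfl⟩
      · refine ⟨0, fun _ => rfl, fun _ _ _ _ _ => rfl, ?_⟩
        intro x' y' h' he hx'
        obtain ⟨rfl, rfl⟩ := EP.pt_inj hΔ he
        exact absurd hx' hx
  choose red r0 r1 r2 using hex
  have R0 : red 0 = 0 := r0 0 rfl
  have R1 : ∀ (x y : M) (h : Eq3 a b x y), x ∉ C → red (EP.pt hΔ x y h) = 0 :=
    fun x y h hx => r1 _ x y h rfl hx
  have R2 : ∀ (x y : M) (h : Eq3 a b x y) (u v : F), red_V C φ x u → red_V C φ y v →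
      ∀ h' : Eq3 a b u v, red (EP.pt hΔ x y h) = EP.pt hΔ u v h' := by
    intro x y h u v hu hv h'
    obtain ⟨hx, rfl⟩ := hu
    obtain ⟨hyy, h'', h3⟩ := r2 _ x y h rfl hx
    rw [h3]
    exact EP.pt_congr hΔ rfl (red_uniq ⟨hyy, rfl⟩ hv)
  refine ⟨red, R0, R1, fun x y h hx => r2 _ x y h rfl hx, ?_⟩
  -- constants
  have Rc : ∀ S : EP a b C₀, red (EP.map i S) = EP.map j S := by
    intro S
    rcases EP.cases hΔ S with rfl | ⟨u, v, h, rfl⟩
    · rw [map_zero, map_zero, R0]
    · rw [EP.map_pt hΔ, EP.map_pt hΔ]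
      exact R2 _ _ _ _ _ (hc u) (hc v) _
  intro Q T
  rcases EP.cases hΔ T with rfl | ⟨u, v, hT, rfl⟩
  · rw [map_zero, map_zero, add_zero, add_zero]
  rcases EP.cases hΔ Q with rfl | ⟨x, y, hQ, rfl⟩
  · rw [zero_add, R0, zero_add, Rc]
  by_cases hxu : x = i u
  · subst hxu
    rcases EP.x_eq hΔ hQ (hT.map i) with h | h
    · have e1 : EP.pt hΔ (i u) y hQ = EP.map i (EP.pt hΔ u v hT) := h
      rw [e1, Rc, ← map_add, ← map_add, Rc]
    · have e1 : EP.pt hΔ (i u) y hQ = EP.map i (-EP.pt hΔ u v hT) := by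
        rw [map_neg]
        exact h
      rw [e1, Rc, ← map_add, ← map_add, Rc]
  · rw [EP.map_pt hΔ, EP.map_pt hΔ]
    have hTj : Eq3 a b (j u) (j v) := hT.map j
    have hTi : Eq3 a b (i u) (i v) := hT.map i
    obtain ⟨x3, y3, h3, hsum, hx3, hy3⟩ := EP.add_of_x_ne hΔ hQ hTi hxu
    rw [hsum]
    have hxu0 : x - i u ≠ 0 := sub_ne_zero.mpr hxu
    set lam : M := (y - i v) / (x - i u) with hlam
    have hlam1 : lam * (x - i u) = y - i v := div_mul_cancel₀ _ hxu0
    have hu := hc u
    have hv := hc v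
    have hsub : y ^ 2 - (i v) ^ 2 = (x - i u) *
        (x ^ 2 + x * i u + (i u) ^ 2 + algebraMap k M a) := by
      unfold Eq3 at hQ hTi
      rw [hQ, hTi]
      ring
    by_cases hxC : x ∈ C
    · -- finite case
      obtain ⟨ξ, hξ⟩ : ∃ ξ, red_V C φ x ξ := ⟨_, hxC, rfl⟩
      obtain ⟨η, hη, hξη⟩ := hy x y hQ ξ hξ
      rw [R2 x y hQ ξ η hξ hη hξη]
      by_cases hξu : ξ = j u
      · subst hξu
        have hx3' : lam ^ 2 ∉ C → x3 ∉ C := by
          intro h4 h5
          apply h4
          have : lam ^ 2 = x3 + x + i u := by rw [hx3]; ring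
          rw [this]
          exact C.add_mem _ _ (C.add_mem _ _ h5 hxC) hu.1
        have hd : red_V C φ (x - i u) 0 := red_congr (red_sub hξ hu) rfl (sub_self _).symm
        have hN : red_V C φ (x ^ 2 + x * i u + (i u) ^ 2 + algebraMap k M a)
            (3 * (j u) ^ 2 + algebraMap k F a) :=
          red_congr (red_add (red_add (red_add (red_pow hξ 2) (red_mul hξ hu)) (red_pow hu 2))
            (hk a)) rfl (by ring)
        have hsq : η ^ 2 = (j v) ^ 2 := by
          unfold Eq3 at hξη hTj
          rw [hξη, hTj]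
        by_cases hjv : j v = 0
        · -- two-torsion
          have hη0 : η = 0 := by
            rw [hjv] at hsq
            simpa using hsq
          have hv0 : v = 0 := (map_eq_zero j).mp hjv
          have hdisc : 3 * (j u) ^ 2 + algebraMap k F a ≠ 0 := by
            intro h4
            have h5 : (j u) ^ 3 + algebraMap k F a * j u + algebraMap k F b = 0 := by
              unfold Eq3 at hTj
              rw [← hTj, hjv]
              ring
            apply hΔ
            apply (algebraMap k F).injective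
            rw [map_zero, map_add, map_mul, map_mul, map_pow, map_pow, map_ofNat, map_ofNat]
            linear_combination (27 * algebraMap k F b - 18 * algebraMap k F a * j u) * h5 +
              (4 * algebraMap k F a ^ 2 + 6 * algebraMap k F a * (j u) ^ 2 -
                9 * algebraMap k F b * j u) * h4
          have h6 : lam ^ 2 = (x ^ 2 + x * i u + (i u) ^ 2 + algebraMap k M a) / (x - i u) := by
            rw [eq_div_iff hxu0]
            have h7 : y ^ 2 = (x - i u) * (x ^ 2 + x * i u + (i u) ^ 2 + algebraMap k M a) := by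
              rw [← hsub, hv0, map_zero]
              ring
            have h8 : lam * (x - i u) = y := by rw [hlam1, hv0, map_zero, sub_zero]
            have h9 : (x - i u) * (lam ^ 2 * (x - i u)) = (x - i u) *
                (x ^ 2 + x * i u + (i u) ^ 2 + algebraMap k M a) := by
              rw [← h7, ← h8]
              ring
            exact mul_left_cancel₀ hxu0 h9
          rw [R1 x3 y3 h3 (hx3' (h6 ▸ red_quot_notin hN hdisc hd hxu0))]
          have e1 : EP.pt hΔ (j u) η hξη = EP.pt hΔ (j u) (-j v) hTj.neg :=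
            EP.pt_congr hΔ rfl (by rw [hη0, hjv, neg_zero])
          rw [e1, add_comm, EP.add_neg_zero hΔ hTj]
        · have h2v : 2 * j v ≠ 0 := mul_ne_zero two_ne_zero hjv
          rcases sq_eq_sq_iff_eq_or_eq_neg.1 hsq with h4 | h4
          · -- doubling
            subst h4
            have hs : red_V C φ (y + i v) (2 * j v) :=
              red_congr (red_add hη hv) rfl (by ring)
            have hs0 : y + i v ≠ 0 := by
              intro h5
              rw [h5] at hs
              exact h2v (red_uniq hs red_zero)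
            have h6 : lam = (x ^ 2 + x * i u + (i u) ^ 2 + algebraMap k M a) / (y + i v) := by
              rw [hlam, div_eq_div_iff hxu0 hs0]
              linear_combination hsub
            have hl : red_V C φ lam ((3 * (j u) ^ 2 + algebraMap k F a) / (2 * j v)) :=
              red_congr (red_div hφ hN hs h2v) h6 rfl
            obtain ⟨x3', y3', h3', hsum', hx3'', hy3''⟩ := EP.add_self hΔ hTj hjv
            have e1 : EP.pt hΔ (j u) (j v) hξη = EP.pt hΔ (j u) (j v) hTj := rfl
            rw [e1, hsum']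
            have p1 : red_V C φ x3 x3' :=
              red_congr (red_sub (red_sub (red_pow hl 2) hξ) hu) hx3 (by rw [hx3'']; ring)
            have p2 : red_V C φ y3 y3' :=
              red_congr (red_neg (red_add (red_mul hl (red_sub p1 hξ)) hη)) hy3 hy3''
            exact R2 x3 y3 h3 x3' y3' p1 p2 h3'
          · -- opposite points
            have h5 : red_V C φ (y - i v) (-(2 * j v)) :=
              red_congr (red_sub hη hv) rfl (by rw [h4]; ring)
            have h6 : lam ∉ C := red_quot_notin h5 (neg_ne_zero.mpr h2v) hd hxu0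
            rw [R1 x3 y3 h3 (hx3' (red_sq_notin h6))]
            have e1 : EP.pt hΔ (j u) η hξη = EP.pt hΔ (j u) (-j v) hTj.neg :=
              EP.pt_congr hΔ rfl h4
            rw [e1, add_comm, EP.add_neg_zero hΔ hTj]
      · -- generic case
        have hd0 : ξ - j u ≠ 0 := sub_ne_zero.mpr hξu
        have hl : red_V C φ lam ((η - j v) / (ξ - j u)) :=
          red_div hφ (red_sub hη hv) (red_sub hξ hu) hd0
        obtain ⟨x3', y3', h3', hsum', hx3', hy3'⟩ := EP.add_of_x_ne hΔ hξη hTj hξu
        rw [hsum']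
        have p1 : red_V C φ x3 x3' :=
          red_congr (red_sub (red_sub (red_pow hl 2) hξ) hu) hx3 hx3'
        have p2 : red_V C φ y3 y3' :=
          red_congr (red_neg (red_add (red_mul hl (red_sub p1 hξ)) hη)) hy3 hy3'
        exact R2 x3 y3 h3 x3' y3' p1 p2 h3'
    · -- the point reduces to infinity
      rw [R1 x y hQ hxC, zero_add]
      have hx0 : x ≠ 0 := fun h0 => hxC (h0 ▸ C.zero_mem)
      set t : M := x⁻¹ with ht
      have htV : red_V C φ t 0 := red_notin hφ hxC
      have htx : t * x = 1 := inv_mul_cancel₀ hx0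
      set w : M := y * t ^ 2 with hw
      have hA := hk a
      have hB := hk b
      generalize hAe : algebraMap k M a = A at *
      generalize hBe : algebraMap k M b = B at *
      have hQ' : y ^ 2 = x ^ 3 + A * x + B := by
        have := hQ
        unfold Eq3 at this
        rw [hAe, hBe] at this
        exact this
      have hw2 : w ^ 2 = t * (1 + A * t ^ 2 + B * t ^ 3) := by
        have h4 : w ^ 2 = (x ^ 3 + A * x + B) * t ^ 4 := by
          rw [hw, ← hQ']
          ring
        rw [h4]
        linear_combination (t * (t * x) ^ 2 + t * (t * x) + t + A * t ^ 3) * htx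
      have hwV : red_V C φ w 0 := by
        have h4 : red_V C φ (w ^ 2) 0 := red_congr (red_mul htV (red_add (red_add red_one
          (red_mul hA (red_pow htV 2))) (red_mul hB (red_pow htV 3)))) hw2 (by rw [zero_mul])
        have h5 : w ∈ C := by
          by_contra h6
          exact red_sq_notin h6 h4.1
        have h6 : (φ ⟨w, h5⟩) ^ 2 = 0 := red_uniq (red_pow ⟨h5, rfl⟩ 2) h4
        exact ⟨h5, by simpa using h6⟩
      set e : M := 1 - i u * t with he
      have heV : red_V C φ e 1 :=
        red_congr (red_sub red_one (red_mul hu htV)) rfl (by ring)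
      have he0 : e ≠ 0 := by
        intro h4
        rw [h4] at heV
        exact one_ne_zero (red_uniq heV red_zero)
      have hxe : x - i u = x * e := by
        rw [he]
        linear_combination (i u) * htx
      -- the first coordinate
      have c1 : (x3 - i u) * e ^ 2 = (3 * (i u) ^ 2 + A) * t - 2 * i v * w +
          (B + (i v) ^ 2 - 2 * (i u) ^ 3) * t ^ 2 := by
        have h4 : (x3 - i u) * (x - i u) ^ 2 = (y - i v) ^ 2 -
            (x + 2 * i u) * (x - i u) ^ 2 := by
          rw [hx3, ← hlam1]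
          ring
        have h5 : x ^ 2 * ((x3 - i u) * e ^ 2) = (3 * (i u) ^ 2 + A) * x - 2 * i v * y +
            (B + (i v) ^ 2 - 2 * (i u) ^ 3) := by
          have h6 : x ^ 2 * ((x3 - i u) * e ^ 2) = (x3 - i u) * (x - i u) ^ 2 := by
            rw [hxe]
            ring
          rw [h6, h4]
          linear_combination hQ'
        have h7 : (x3 - i u) * e ^ 2 = t ^ 2 * (x ^ 2 * ((x3 - i u) * e ^ 2)) := by
          linear_combination (-((x3 - i u) * e ^ 2 * (t * x + 1))) * htx
        rw [h7, h5, hw]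
        linear_combination ((3 * (i u) ^ 2 + A) * t) * htx
      have v1 : red_V C φ (x3 - i u) 0 := by
        have h4 : x3 - i u = ((3 * (i u) ^ 2 + A) * t - 2 * i v * w +
          (B + (i v) ^ 2 - 2 * (i u) ^ 3) * t ^ 2) / e ^ 2 := by
          rw [eq_div_iff (pow_ne_zero 2 he0), c1]
        refine red_congr (red_div hφ (red_add (red_sub
          (red_mul (red_add (red_mul red_three (red_pow hu 2)) hA) htV)
          (red_mul (red_mul red_two hv) hwV))
          (red_mul (red_sub (red_add hB (red_pow hv 2)) (red_mul red_two (red_pow hu 3)))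
            (red_pow htV 2))) (red_pow heV 2) (by norm_num)) h4 ?_
        ring
      have p1 : red_V C φ x3 (j u) :=
        red_congr (red_add v1 hu) (by ring) (by ring)
      -- the second coordinate
      have c2 : lam * (x3 - i u) * e ^ 3 = (3 * (i u) ^ 2 + A) * (w - i v * t ^ 2) -
          2 * i v * ((1 + A * t ^ 2 + B * t ^ 3) - i v * w * t) +
          (B + (i v) ^ 2 - 2 * (i u) ^ 3) * (w * t - i v * t ^ 3) := by
        have h4 : lam * e = t * (y - i v) := by
          have h5 : x * (lam * e) = y - i v := by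
            rw [← hlam1, hxe]
            ring
          rw [← h5]
          linear_combination (-(lam * e)) * htx
        have h6 : lam * (x3 - i u) * e ^ 3 = (lam * e) * ((x3 - i u) * e ^ 2) := by ring
        have h7 : y ^ 2 * t ^ 3 = 1 + A * t ^ 2 + B * t ^ 3 := by
          rw [hQ']
          linear_combination ((t * x) ^ 2 + t * x + 1 + A * t ^ 2) * htx
        rw [h6, h4, c1, hw]
        linear_combination (-(2 * i v)) * h7
      have v2 : red_V C φ (lam * (x3 - i u)) (-(2 * j v)) := by
        have h4 : lam * (x3 - i u) = ((3 * (i u) ^ 2 + A) * (w - i v * t ^ 2) -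
          2 * i v * ((1 + A * t ^ 2 + B * t ^ 3) - i v * w * t) +
          (B + (i v) ^ 2 - 2 * (i u) ^ 3) * (w * t - i v * t ^ 3)) / e ^ 3 := by
          rw [eq_div_iff (pow_ne_zero 3 he0), c2]
        refine red_congr (red_div hφ (red_add (red_sub
          (red_mul (red_add (red_mul red_three (red_pow hu 2)) hA)
            (red_sub hwV (red_mul hv (red_pow htV 2))))
          (red_mul (red_mul red_two hv) (red_sub (red_add (red_add red_one
            (red_mul hA (red_pow htV 2))) (red_mul hB (red_pow htV 3)))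
            (red_mul (red_mul hv hwV) htV))))
          (red_mul (red_sub (red_add hB (red_pow hv 2)) (red_mul red_two (red_pow hu 3)))
            (red_sub (red_mul hwV htV) (red_mul hv (red_pow htV 3)))))
          (red_pow heV 3) (by norm_num)) h4 ?_
        ring
      have p2 : red_V C φ y3 (j v) := by
        have h4 : y3 = -(lam * (x3 - i u) + i v) := by
          rw [hy3]
          linear_combination hlam1
        exact red_congr (red_neg (red_add v2 hv)) h4 (by ring)
      exact R2 x3 y3 h3 (j u) (j v) p1 p2 hTj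

end Pool.Agent.Helper18.NF
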